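import Pool.Agent.R551.CG.Internal

/-!
# Internal contextual grammars: suffix-closed selection is not covered by `n`-state selection

The definitions are in `Pool/Agent/R551/CG/Defs.lean` and `Pool/Agent/R551/CG/Internal.lean`.

The example for `n` states (with `m = n`) has the letters `e < a < f < h < b`, the axioms
`a^j b^(2m - j)`, the context `(e, f h)` with the selection language `V*` and the context `(e, f)`
with the selection language of the sorted words over `e, a, f` that have at most `m` letters `a`.
A generated word that is sorted and has more than `m` letters `a` has as many letters `e` as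
letters `h`. In a grammar with `n`-state selection for the same language, look at the last step in
the derivation of the long word `e^k a^m f^k b^m`: its context is `(e^i, f^i)`, wrapped around a
factor `e^β a^m f^γ`. The automaton for the selection language also accepts `e^β a^(m+p) f^γ` for
some `1 ≤ p ≤ m`, and wrapping the context around this factor of the word
`e^K a^(m+p) f^K h^K b^(m-p)` of the language leads out of the language.
-/

set_option autoImplicit false

namespace Pool.Agent.Results.MP_47ab97_lc.SuffixClosedNotStates

open Pool.Agent.R551.CG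

/-- a long generated word has a last step that changes the word -/
theorem last_step (G : Grammar) {a : List ℕ} (ha : a ∈ G.A) {y : List ℕ}
    (h : Relation.ReflTransGen G.IStep a y) (hy : y ≠ a) :
    ∃ x ∈ G.ilang, x ≠ y ∧ G.IStep x y := by
  induction h with
  | refl => exact absurd rfl hy
  | @tail x y h hs ih =>
    by_cases hxy : x = y
    · subst hxy
      exact ih hy
    · exact ⟨x, ⟨a, ha, h⟩, hxy, hs⟩

/-- a sorted word over `0, 1, 2` is determined by the numbers of its letters -/
theorem eq_block {w : List ℕ} (h3 : ∀ x ∈ w, x < 3) (hs : w.Pairwise (· ≤ ·)) :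
    w = List.replicate (w.count 0) 0 ++ List.replicate (w.count 1) 1 ++
      List.replicate (w.count 2) 2 := by
  have hperm : w.Perm (List.replicate (w.count 0) 0 ++ List.replicate (w.count 1) 1 ++
      List.replicate (w.count 2) 2) := by
    rw [List.perm_iff_count]
    intro a
    simp only [List.count_append, List.count_replicate]
    by_cases ha : a < 3
    · interval_cases a <;> simp
    · have h0 : w.count a = 0 := by
        rw [List.count_eq_zero]
        intro h
        exact ha (h3 a h)
      rw [h0]
      have e0 : (0 == a) = false := by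
        rw [beq_eq_false_iff_ne]
        omega
      have e1 : (1 == a) = false := by
        rw [beq_eq_false_iff_ne]
        omega
      have e2 : (2 == a) = false := by
        rw [beq_eq_false_iff_ne]
        omega
      simp [e0, e1, e2]
  refine hperm.eq_of_pairwise (fun a b _ _ h1 h2 => le_antisymm h1 h2) hs ?_
  refine pw_append 1 (pw_append 0 (pw_rep _ _) (pw_rep _ _) (mem_rep_le le_rfl)
    (le_mem_rep (by omega))) (pw_rep _ _) ?_ (le_mem_rep (by omega))
  intro x hx
  simp only [List.mem_append, List.mem_replicate] at hx
  omega

/-- pumping -/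
theorem pump {k m : ℕ} (hk : k ≤ m) (δ : Fin k → ℕ → Fin k) (s : Fin k) :
    ∃ p, 1 ≤ p ∧ p ≤ m ∧
      (List.replicate (m + p) 1).foldl δ s = (List.replicate m 1).foldl δ s := by
  have hcard : Fintype.card (Fin k) < Fintype.card (Fin (m + 1)) := by
    rw [Fintype.card_fin, Fintype.card_fin]
    omega
  obtain ⟨x, y, hxy, hf⟩ := Fintype.exists_ne_map_eq_of_card_lt
    (fun i : Fin (m + 1) => (List.replicate i.1 1).foldl δ s) hcard
  have key : ∀ x y : Fin (m + 1), x < y →
      (List.replicate x.1 1).foldl δ s = (List.replicate y.1 1).foldl δ s →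
      ∃ p, 1 ≤ p ∧ p ≤ m ∧
        (List.replicate (m + p) 1).foldl δ s = (List.replicate m 1).foldl δ s := by
    intro x y hlt he
    have h1 : x.1 < y.1 := hlt
    have h2 := y.2
    refine ⟨y.1 - x.1, by omega, by omega, ?_⟩
    have e1 : m + (y.1 - x.1) = y.1 + (m - x.1) := by omega
    have e2 : List.replicate m 1 = List.replicate x.1 1 ++ List.replicate (m - x.1) 1 := by
      rw [← List.replicate_add]
      congr 1
      omega
    rw [e1, e2, List.replicate_add, List.foldl_append, List.foldl_append, he]
  rcases lt_or_gt_of_ne hxy with h | h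
  · exact key x y h hf
  · exact key y x h hf.symm

/-- For every `n ≥ 1` there is a language that is generated by an internal contextual grammar with
regular suffix-closed selection languages, but by none whose selection languages are accepted by
complete deterministic automata with at most `n` states. -/
theorem result (n : ℕ) (hn : 1 ≤ n) : (IC SuffixClosed \ IC (RegStates n)).Nonempty := by
  refine ⟨(GI n).ilang, ⟨GI n, ?_, rfl⟩, ?_⟩
  · rintro p (rfl | rfl)
    · exact suffixClosed_univ
    · exact suffixClosed_Sel n
  rintro ⟨G, hsel, hG⟩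
  -- a bound for the lengths of the axioms
  obtain ⟨M, hM⟩ : ∃ M : ℕ, ∀ a ∈ G.A, a.length ≤ M := by
    obtain ⟨M, h⟩ := (G.finite_A.image List.length).bddAbove
    exact ⟨M, fun a ha => h (Set.mem_image_of_mem _ ha)⟩
  have hw := mem_w n (M + 1)
  set w := List.replicate (M + 1) 0 ++ List.replicate n 1 ++ List.replicate (M + 1) 2 ++
    List.replicate n 4 with hwdef
  have hws : w.Pairwise (· ≤ ·) := by
    refine pw_append 2 (pw_append 1 (pw_append 0 (pw_rep _ _) (pw_rep _ _) (mem_rep_le le_rfl)
      (le_mem_rep (by omega))) (pw_rep _ _) ?_ (le_mem_rep (by omega))) (pw_rep _ _) ?_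
      (le_mem_rep (by omega))
    · intro x hx
      simp only [List.mem_append, List.mem_replicate] at hx
      omega
    · intro x hx
      simp only [List.mem_append, List.mem_replicate] at hx
      omega
  have hw1 : w.count 1 = n := by simp [hwdef, List.count_append, List.count_replicate]
  have hw3 : w.count 3 = 0 := by simp [hwdef, List.count_append, List.count_replicate]
  have hw' : w ∈ G.ilang := by
    rw [hG]
    exact hw
  obtain ⟨a, ha, hder⟩ := hw'
  obtain ⟨x, hx, hxw, p, hp, x₁, x₂, x₃, hxe, hx₂, c, hc, hwe⟩ := last_step G ha hder (by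
    intro h
    have h1 := hM a ha
    rw [← h, hwdef] at h1
    simp only [List.length_append, List.length_replicate] at h1
    omega)
  -- the invariants
  have hxI : Inv n x := inv_of_mem (by rw [← hG]; exact hx)
  have hwI : Inv n w := inv_of_mem hw
  obtain ⟨u, v⟩ := c
  simp only at hwe
  obtain ⟨_, ix1, ix2, _⟩ := hxI
  obtain ⟨iw0, iw1, iw2, _⟩ := hwI
  rw [hxe] at ix1 ix2
  rw [hwe] at iw0 iw1 iw2 hw1 hw3 hws
  simp only [List.count_append] at ix1 ix2 iw1 iw2 hw1 hw3
  have hu1 : u.count 1 = 0 := by omega
  have hv1 : v.count 1 = 0 := by omega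
  have hu3 : u.count 3 = 0 := by omega
  have hv3 : v.count 3 = 0 := by omega
  have hu4 : u.count 4 = 0 := by omega
  have hv4 : v.count 4 = 0 := by omega
  have huv : u.count 0 + v.count 0 = u.count 2 + v.count 2 := by omega
  have letters : ∀ l : List ℕ, (∀ b ∈ l, b < 5) → l.count 1 = 0 → l.count 3 = 0 →
      l.count 4 = 0 → ∀ b ∈ l, b = 0 ∨ b = 2 := by
    intro l h5 h1 h3 h4 b hb
    have hb5 := h5 b hb
    rw [List.count_eq_zero] at h1 h3 h4
    have n1 : b ≠ 1 := fun h => h1 (h ▸ hb)
    have n3 : b ≠ 3 := fun h => h3 (h ▸ hb)
    have n4 : b ≠ 4 := fun h => h4 (h ▸ hb)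
    omega
  have hul := letters u (fun b hb => iw0 b (by simp [hb])) hu1 hu3 hu4
  have hvl := letters v (fun b hb => iw0 b (by simp [hb])) hv1 hv3 hv4
  -- the context is not empty
  have hpos : 0 < u.count 0 + v.count 0 := by
    by_contra h0
    have e1 : u.count 0 = 0 := by omega
    have e2 : v.count 0 = 0 := by omega
    have e3 : u.count 2 = 0 := by omega
    have e4 : v.count 2 = 0 := by omega
    rw [List.count_eq_zero] at e1 e2 e3 e4
    have hu : u = [] := by
      rcases u with _ | ⟨b, u⟩
      · rfl
      · rcases hul b (by simp) with h | h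
        · exact absurd (h ▸ List.mem_cons_self) e1
        · exact absurd (h ▸ List.mem_cons_self) e3
    have hv : v = [] := by
      rcases v with _ | ⟨b, v⟩
      · rfl
      · rcases hvl b (by simp) with h | h
        · exact absurd (h ▸ List.mem_cons_self) e2
        · exact absurd (h ▸ List.mem_cons_self) e4
    apply hxw
    rw [hxe, hwe, hu, hv]
    simp
  -- sortedness of the parts
  have hs5 := List.pairwise_append.1 hws
  have hs4 := List.pairwise_append.1 hs5.1
  have hs3 := List.pairwise_append.1 hs4.1
  have hs2 := List.pairwise_append.1 hs3.1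
  -- `u` has no letter `2`
  have hu2 : u.count 2 = 0 := by
    by_contra hne
    have h2u : 2 ∈ u := List.count_pos_iff.1 (by omega)
    have h0v : v.count 0 = 0 := by
      rw [List.count_eq_zero]
      intro h
      have := hs4.2.2 2 (by simp [h2u]) 0 h
      omega
    have h0u : 0 ∈ u := List.count_pos_iff.1 (by omega)
    have c1 : x₁.count 1 = 0 := by
      rw [List.count_eq_zero]
      intro h
      have := hs2.2.2 1 h 0 h0u
      omega
    have c2 : x₂.count 1 = 0 := by
      rw [List.count_eq_zero]
      intro h
      have := hs3.2.2 2 (by simp [h2u]) 1 h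
      omega
    have c3 : x₃.count 1 = 0 := by
      rw [List.count_eq_zero]
      intro h
      have := hs5.2.2 2 (by simp [h2u]) 1 h
      omega
    omega
  have h2v : 2 ∈ v := List.count_pos_iff.1 (by omega)
  have hv0 : v.count 0 = 0 := by
    by_contra hne
    have h0v : 0 ∈ v := List.count_pos_iff.1 (by omega)
    have c1 : x₁.count 1 = 0 := by
      rw [List.count_eq_zero]
      intro h
      have := hs4.2.2 1 (by simp [h]) 0 h0v
      omega
    have c2 : x₂.count 1 = 0 := by
      rw [List.count_eq_zero]
      intro h
      have := hs4.2.2 1 (by simp [h]) 0 h0v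
      omega
    have c3 : x₃.count 1 = 0 := by
      rw [List.count_eq_zero]
      intro h
      have := hs5.2.2 2 (by simp [h2v]) 1 h
      omega
    omega
  have h0u : 0 ∈ u := List.count_pos_iff.1 (by omega)
  have hu_all : ∀ b ∈ u, b = 0 := by
    intro b hb
    rcases hul b hb with h | h
    · exact h
    · rw [List.count_eq_zero] at hu2
      exact absurd (h ▸ hb) hu2
  have hv_all : ∀ b ∈ v, b = 2 := by
    intro b hb
    rcases hvl b hb with h | h
    · rw [List.count_eq_zero] at hv0
      exact absurd (h ▸ hb) hv0
    · exact h
  have c1 : x₁.count 1 = 0 := by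
    rw [List.count_eq_zero]
    intro h
    have := hs2.2.2 1 h 0 h0u
    omega
  have c3 : x₃.count 1 = 0 := by
    rw [List.count_eq_zero]
    intro h
    have := hs5.2.2 2 (by simp [h2v]) 1 h
    omega
  have hx₂1 : x₂.count 1 = n := by omega
  -- the form of `x₂`
  have hx₂3 : ∀ b ∈ x₂, b < 3 := by
    intro b hb
    have := hs4.2.2 b (by simp [hb]) 2 h2v
    omega
  have hform := eq_block hx₂3 hs3.2.1
  rw [hx₂1] at hform
  set β := x₂.count 0 with hβ
  set γ := x₂.count 2 with hγ
  clear_value β γ
  subst hform
  -- pumping
  obtain ⟨k, hk, δ, z₀, F, hS⟩ := hsel p hp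
  rw [hS] at hx₂
  obtain ⟨hov, hacc⟩ := hx₂
  obtain ⟨q, hq1, hqm, hpump⟩ := pump hk δ ((List.replicate β 0).foldl δ z₀)
  have hnew : List.replicate β 0 ++ List.replicate (n + q) 1 ++ List.replicate γ 2 ∈ p.1 := by
    rw [hS]
    refine ⟨?_, ?_⟩
    · intro b hb
      simp only [List.mem_append, List.mem_replicate] at hb
      apply hov
      simp only [List.mem_append, List.mem_replicate]
      omega
    · rw [List.foldl_append, List.foldl_append, hpump]
      rw [List.foldl_append, List.foldl_append] at hacc
      exact hacc
  -- the word to which the context is applied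
  have hyL := mem_y n (n + q) (β + γ) (by omega)
  rw [← hG] at hyL
  obtain ⟨a', ha', hder'⟩ := hyL
  set z := List.replicate γ 0 ++ u ++ (List.replicate β 0 ++ List.replicate (n + q) 1 ++
    List.replicate γ 2) ++ v ++ (List.replicate β 2 ++ (List.replicate (β + γ) 3 ++
      List.replicate (2 * n - (n + q)) 4)) with hz
  have hzL : z ∈ G.ilang := by
    refine ⟨a', ha', hder'.tail ⟨p, hp, List.replicate γ 0, _, List.replicate β 2 ++
      (List.replicate (β + γ) 3 ++ List.replicate (2 * n - (n + q)) 4), ?_, hnew, (u, v), hc,
      rfl⟩⟩
    have e1 : List.replicate (β + γ) (0 : ℕ) = List.replicate γ 0 ++ List.replicate β 0 := by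
      rw [← List.replicate_add, add_comm]
    have e2 : List.replicate (β + γ) (2 : ℕ) = List.replicate γ 2 ++ List.replicate β 2 := by
      rw [← List.replicate_add, add_comm]
    rw [e1, e2]
    simp only [List.append_assoc]
  rw [hG] at hzL
  obtain ⟨_, _, _, hzI⟩ := inv_of_mem hzL
  have hzs : z.Pairwise (· ≤ ·) := by
    have hup : u.Pairwise (· ≤ ·) := hs2.2.1
    have hvp : v.Pairwise (· ≤ ·) := hs4.2.1
    have p1 : (List.replicate γ 0 ++ u).Pairwise (· ≤ ·) :=
      pw_append 0 (pw_rep _ _) hup (mem_rep_le le_rfl) fun x hx => by omega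
    have p2 : (List.replicate β 0 ++ List.replicate (n + q) 1 ++
        List.replicate γ 2).Pairwise (· ≤ ·) := (sel_block (m := n + q) le_rfl).2.2.1
    have p3 : (List.replicate γ 0 ++ u ++ (List.replicate β 0 ++ List.replicate (n + q) 1 ++
        List.replicate γ 2)).Pairwise (· ≤ ·) := by
      refine pw_append 0 p1 p2 ?_ fun x hx => by omega
      intro x hx
      rcases List.mem_append.1 hx with h | h
      · rw [(List.mem_replicate.1 h).2]
      · rw [hu_all x h]
    have p4 : (List.replicate γ 0 ++ u ++ (List.replicate β 0 ++ List.replicate (n + q) 1 ++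
        List.replicate γ 2) ++ v).Pairwise (· ≤ ·) := by
      refine pw_append 2 p3 hvp ?_ fun x hx => by rw [hv_all x hx]
      intro x hx
      simp only [List.mem_append, List.mem_replicate] at hx
      rcases hx with (h | h) | ((h | h) | h)
      · omega
      · rw [hu_all x h]
        omega
      · omega
      · omega
      · omega
    have p5 : (List.replicate (β + γ) 3 ++
        List.replicate (2 * n - (n + q)) 4 : List ℕ).Pairwise (· ≤ ·) :=
      pw_append 3 (pw_rep _ _) (pw_rep _ _) (mem_rep_le le_rfl) (le_mem_rep (by omega))
    have p6 : (List.replicate β 2 ++ (List.replicate (β + γ) 3 ++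
        List.replicate (2 * n - (n + q)) 4) : List ℕ).Pairwise (· ≤ ·) := by
      refine pw_append 2 (pw_rep _ _) p5 (mem_rep_le le_rfl) ?_
      intro x hx
      simp only [List.mem_append, List.mem_replicate] at hx
      omega
    refine pw_append 2 p4 p6 ?_ ?_
    · intro x hx
      simp only [List.mem_append, List.mem_replicate] at hx
      rcases hx with ((h | h) | ((h | h) | h)) | h
      · omega
      · rw [hu_all x h]
        omega
      · omega
      · omega
      · omega
      · rw [hv_all x h]
    · intro x hx
      simp only [List.mem_append, List.mem_replicate] at hx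
      omega
  have hz1 : n < z.count 1 := by
    rw [hz]
    simp only [List.count_append]
    simp [List.count_replicate]
    omega
  have hfin := hzI hzs hz1
  have e0 : z.count 0 = β + γ + u.count 0 := by
    rw [hz]
    simp only [List.count_append, hv0]
    simp [List.count_replicate]
    omega
  have e3 : z.count 3 = β + γ := by
    rw [hz]
    simp only [List.count_append, hu3, hv3]
    simp [List.count_replicate]
  omega

end Pool.Agent.Results.MP_47ab97_lc.SuffixClosedNotStates
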